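import Mathlib
import Pool.Agent.W405.RK2.RS

/-!
# The weighted sum with the Rankin trick, general base and general constant
-/

namespace Pool.Agent.L0h5.NT

open Finset Pool.Agent.W262.RK Pool.Agent.W405.RK2

/-- the main inequality -/
lemma main_ineq_g (J : Type) [Fintype J] [DecidableEq J] (z y : ℕ) (G : (J → ℕ) → ℝ) (δ : ℝ)
    (b : ℝ) (hb : 0 ≤ b) (c : ℕ) (hz : c ≤ z) (hδ : 0 ≤ δ) (hG : ∀ s, 0 ≤ G s)
    (hg : ∀ s e : J → ℕ, (fun j => s j * e j) ∈ Tup J z y →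
      G (fun j => s j * e j) ≤ b ^ (∑ j, (e j).primeFactors.card) * G s) :
    ∑ s ∈ Tup J z y, G s * (∏ j, gw 1 c (s j)) * (∏ j, (s j : ℝ)) ^ δ ≤
      (∑ e ∈ Tup J z y, ∏ j, (b ^ (e j).primeFactors.card * gw 1 c (e j) * HH δ (e j))) *
        ∑ s ∈ Tup J z y, G s * ∏ j, gw 1 c (s j) := by
  classical
  set F : (J → ℕ) × (J → ℕ) → ℝ := fun x =>
    (∏ j, (b ^ (x.2 j).primeFactors.card * gw 1 c (x.2 j) * HH δ (x.2 j))) *
      (G x.1 * ∏ j, gw 1 c (x.1 j)) with hF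
  have hR : (∑ e ∈ Tup J z y, ∏ j, (b ^ (e j).primeFactors.card * gw 1 c (e j) * HH δ (e j))) *
        ∑ s ∈ Tup J z y, G s * ∏ j, gw 1 c (s j) = ∑ x ∈ Tup J z y ×ˢ Tup J z y, F x := by
    rw [sum_mul_sum, sum_product, sum_comm]
  have hFn : ∀ x ∈ Tup J z y ×ˢ Tup J z y, 0 ≤ F x := by
    intro x hx
    rw [mem_product] at hx
    have h1 := mem_Tup.1 hx.1
    have h2 := mem_Tup.1 hx.2
    refine mul_nonneg (prod_nonneg fun j _ => ?_) (mul_nonneg (hG _) (prod_nonneg fun j _ => ?_))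
    · exact mul_nonneg (mul_nonneg (pow_nonneg hb _) (gw1_nonneg hz (h2.1 j))) (HH_nonneg hδ _)
    · exact gw1_nonneg hz (h1.1 j)
  -- expansion of the left side
  have hL : ∀ s ∈ Tup J z y, G s * (∏ j, gw 1 c (s j)) * (∏ j, (s j : ℝ)) ^ δ =
      ∑ e ∈ Fintype.piFinset (fun j => (s j).divisors),
        G s * (∏ j, gw 1 c (s j)) * ∏ j, HH δ (e j) := by
    intro s hs
    have h1 := mem_Tup.1 hs
    rw [← mul_sum]
    congr 1
    rw [← Real.finsetProd_rpow _ _ (fun i _ => Nat.cast_nonneg _)]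
    rw [← Finset.prod_univ_sum]
    refine prod_congr rfl fun j _ => ?_
    exact rpow_expand δ ((PP_squarefree z y).squarefree_of_dvd (h1.1 j))
  rw [sum_congr rfl hL, sum_sigma', hR]
  -- facts about the pairs
  have key : ∀ x ∈ (Tup J z y).sigma (fun s => Fintype.piFinset (fun j => (s j).divisors)),
      (∀ j, x.2 j ∣ x.1 j) ∧ (∀ j, x.1 j ∣ PP z y) ∧
      (∀ i j, i ≠ j → (x.1 i).Coprime (x.1 j)) := by
    intro x hx
    rw [mem_sigma] at hx
    have h1 := mem_Tup.1 hx.1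
    have h2 := Fintype.mem_piFinset.1 hx.2
    exact ⟨fun j => Nat.dvd_of_mem_divisors (h2 j), h1.1, h1.2⟩
  set φ : (Σ _ : J → ℕ, J → ℕ) → (J → ℕ) × (J → ℕ) := fun x => (fun j => x.1 j / x.2 j, x.2)
    with hφ
  have hinj : Set.InjOn φ
      ((Tup J z y).sigma (fun s => Fintype.piFinset (fun j => (s j).divisors)) : Set _) := by
    intro x hx x' hx' hxx
    have k1 := key x (Finset.mem_coe.1 hx)
    have k2 := key x' (Finset.mem_coe.1 hx')
    have e2 : x.2 = x'.2 := congrArg Prod.snd hxx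
    have e1 : (fun j => x.1 j / x.2 j) = fun j => x'.1 j / x'.2 j := congrArg Prod.fst hxx
    have e3 : x.1 = x'.1 := by
      funext j
      have h3 := congrFun e1 j
      have h4 := Nat.div_mul_cancel (k1.1 j)
      have h5 := Nat.div_mul_cancel (k2.1 j)
      have h3 : x.1 j / x.2 j = x'.1 j / x'.2 j := h3
      rw [← h4, ← h5, h3, e2]
    cases x; cases x'
    simp only at e2 e3
    subst e2; subst e3; rfl
  have hmaps : ∀ x ∈ (Tup J z y).sigma (fun s => Fintype.piFinset (fun j => (s j).divisors)),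
      φ x ∈ Tup J z y ×ˢ Tup J z y := by
    intro x hx
    have k := key x hx
    rw [mem_product]
    constructor
    · rw [mem_Tup]
      refine ⟨fun j => (Nat.div_dvd_of_dvd (k.1 j)).trans (k.2.1 j), fun i j hij => ?_⟩
      exact Nat.Coprime.coprime_dvd_left (Nat.div_dvd_of_dvd (k.1 i))
        (Nat.Coprime.coprime_dvd_right (Nat.div_dvd_of_dvd (k.1 j)) (k.2.2 i j hij))
    · rw [mem_Tup]
      refine ⟨fun j => (k.1 j).trans (k.2.1 j), fun i j hij => ?_⟩
      exact Nat.Coprime.coprime_dvd_left (k.1 i)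
        (Nat.Coprime.coprime_dvd_right (k.1 j) (k.2.2 i j hij))
  have hterm : ∀ x ∈ (Tup J z y).sigma (fun s => Fintype.piFinset (fun j => (s j).divisors)),
      G x.1 * (∏ j, gw 1 c (x.1 j)) * ∏ j, HH δ (x.2 j) ≤ F (φ x) := by
    intro x hx
    have k := key x hx
    have hm := hmaps x hx
    rw [mem_product] at hm
    have hm1 := mem_Tup.1 hm.1
    have hm2 := mem_Tup.1 hm.2
    have e0 : (fun j => (x.1 j / x.2 j) * x.2 j) = x.1 := by
      funext j
      exact Nat.div_mul_cancel (k.1 j)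
    have hx1 : x.1 ∈ Tup J z y := (mem_sigma.1 hx).1
    have h1 : G x.1 ≤ b ^ (∑ j, (x.2 j).primeFactors.card) * G (fun j => x.1 j / x.2 j) := by
      have := hg (fun j => x.1 j / x.2 j) x.2 (by rw [e0]; exact hx1)
      rwa [e0] at this
    have h2 : ∏ j, gw 1 c (x.1 j) = (∏ j, gw 1 c (x.1 j / x.2 j)) * ∏ j, gw 1 c (x.2 j) := by
      rw [← prod_mul_distrib]
      refine prod_congr rfl fun j _ => ?_
      have h3 : x.1 j = (x.1 j / x.2 j) * x.2 j := (Nat.div_mul_cancel (k.1 j)).symm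
      have hsq : Squarefree ((x.1 j / x.2 j) * x.2 j) := by
        rw [← h3]
        exact (PP_squarefree z y).squarefree_of_dvd (k.2.1 j)
      conv_lhs => rw [h3]
      exact gw_mul 1 c (Nat.coprime_of_squarefree_mul hsq)
    have n1 : 0 ≤ ∏ j, gw 1 c (x.1 j / x.2 j) := prod_nonneg fun j _ => gw1_nonneg hz (hm1.1 j)
    have n2 : 0 ≤ ∏ j, gw 1 c (x.2 j) := prod_nonneg fun j _ => gw1_nonneg hz (hm2.1 j)
    have n3 : 0 ≤ ∏ j, HH δ (x.2 j) := prod_nonneg fun j _ => HH_nonneg hδ _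
    have h4 : F (φ x) = b ^ (∑ j, (x.2 j).primeFactors.card) * G (fun j => x.1 j / x.2 j) *
        ((∏ j, gw 1 c (x.1 j / x.2 j)) * (∏ j, gw 1 c (x.2 j)) * ∏ j, HH δ (x.2 j)) := by
      simp only [hF, hφ]
      rw [prod_mul_distrib, prod_mul_distrib, Finset.prod_pow_eq_pow_sum]
      ring
    rw [h4, h2]
    calc G x.1 * ((∏ j, gw 1 c (x.1 j / x.2 j)) * ∏ j, gw 1 c (x.2 j)) * ∏ j, HH δ (x.2 j)
        = G x.1 * ((∏ j, gw 1 c (x.1 j / x.2 j)) * (∏ j, gw 1 c (x.2 j)) * ∏ j, HH δ (x.2 j)) := by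
          ring
      _ ≤ _ := mul_le_mul_of_nonneg_right h1 (mul_nonneg (mul_nonneg n1 n2) n3)
  calc ∑ x ∈ (Tup J z y).sigma (fun s => Fintype.piFinset (fun j => (s j).divisors)),
        G x.1 * (∏ j, gw 1 c (x.1 j)) * ∏ j, HH δ (x.2 j)
      ≤ ∑ x ∈ (Tup J z y).sigma (fun s => Fintype.piFinset (fun j => (s j).divisors)), F (φ x) :=
        sum_le_sum hterm
    _ = ∑ w ∈ ((Tup J z y).sigma (fun s => Fintype.piFinset (fun j => (s j).divisors))).image φ,
          F w := (sum_image hinj).symm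
    _ ≤ ∑ x ∈ Tup J z y ×ˢ Tup J z y, F x := by
        refine sum_le_sum_of_subset_of_nonneg ?_ fun x hx _ => hFn x hx
        intro w hw
        obtain ⟨x, hx, rfl⟩ := mem_image.1 hw
        exact hmaps x hx

/-- the bracket -/
lemma bracket_g (J : Type) [Fintype J] [DecidableEq J] (z c : ℕ) (b lam : ℝ) (hb : 0 ≤ b)
    (hz : 2 * c + 2 ≤ z) (hlam : 0 ≤ lam) : ∃ E : ℝ, 0 ≤ E ∧ ∀ y : ℕ, z < y →
    ∑ e ∈ Tup J z y, ∏ j, (b ^ (e j).primeFactors.card * gw 1 c (e j) *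
      HH (lam / Real.log y) (e j)) ≤ E := by
  classical
  obtain ⟨C1, hC1⟩ := Pool.Agent.Helper256.KM.mertens_log
  set B : ℝ := 2 * b * (lam * Real.exp lam * (1 + |C1|)) with hB
  have hB0 : 0 ≤ B := by positivity
  refine ⟨Real.exp B ^ Fintype.card J, by positivity, fun y hy => ?_⟩
  have hy3 : 3 ≤ y := by omega
  have hyr : (3 : ℝ) ≤ y := by exact_mod_cast hy3
  have hl1 : 1 < Real.log y := by
    rw [Real.lt_log_iff_exp_lt (by linarith)]
    have := Real.exp_one_lt_d9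
    linarith
  set δ : ℝ := lam / Real.log y with hδd
  have hδ : 0 ≤ δ := div_nonneg hlam (by linarith)
  set φ : ℕ → ℝ := fun d => b ^ d.primeFactors.card * gw 1 c d * HH δ d with hφ
  have hφn : ∀ d ∈ (PP z y).divisors, 0 ≤ φ d := by
    intro d hd
    exact mul_nonneg (mul_nonneg (by positivity)
      (gw1_nonneg (by omega) (Nat.dvd_of_mem_divisors hd))) (HH_nonneg hδ _)
  have h1 : ∑ e ∈ Tup J z y, ∏ j, φ (e j) ≤
      ∑ e ∈ Fintype.piFinset (fun _ : J => (PP z y).divisors), ∏ j, φ (e j) := by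
    unfold Tup
    refine sum_le_sum_of_subset_of_nonneg (filter_subset _ _) fun e he _ => ?_
    exact prod_nonneg fun j _ => hφn _ (Fintype.mem_piFinset.1 he j)
  have h2 : ∑ e ∈ Fintype.piFinset (fun _ : J => (PP z y).divisors), ∏ j, φ (e j) =
      (∑ d ∈ (PP z y).divisors, φ d) ^ Fintype.card J := by
    rw [← Finset.prod_univ_sum, prod_const, Finset.card_univ]
  set ψ : ℕ → ℝ := fun p => b * (1 / ((p : ℝ) - c)) * ((p : ℝ) ^ δ - 1) with hψ
  have h3 : ∑ d ∈ (PP z y).divisors, φ d = ∏ p ∈ PS z y, (1 + ψ p) := by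
    have := Pool.Agent.W655.RK.sum_mult (PS z y) (fun p hp => Pool.Agent.W655.RK.PS_prime hp) ψ
    rw [← this]
    refine sum_congr rfl fun d _ => ?_
    simp only [hφ, hψ, gw, HH]
    rw [← prod_const, ← prod_mul_distrib, ← prod_mul_distrib]
  have hψn : ∀ p ∈ PS z y, 0 ≤ ψ p ∧ ψ p ≤ 2 * b * (δ * Real.exp lam) * (Real.log p / p) := by
    intro p hp
    have hpz := Pool.Agent.W655.RK.PS_lt hp
    have hpy := Pool.Agent.W655.RK.PS_le hp
    have hpp := Pool.Agent.W655.RK.PS_prime hp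
    have hp1 : (2 * c + 3 : ℝ) ≤ p := by exact_mod_cast (by omega : 2 * c + 3 ≤ p)
    have hc0 : (0:ℝ) ≤ c := Nat.cast_nonneg c
    have hp0 : (0:ℝ) < p := by linarith
    have hpc : (0:ℝ) < (p : ℝ) - c := by linarith
    have hp1' : (1 : ℝ) ≤ p := by linarith
    have hlogp : 0 ≤ Real.log p := Real.log_nonneg hp1'
    have hlogy : Real.log p ≤ Real.log y := Real.log_le_log hp0 (by exact_mod_cast hpy)
    have hx : δ * Real.log p ≤ lam := by
      rw [hδd, div_mul_eq_mul_div, div_le_iff₀ (by linarith)]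
      exact mul_le_mul_of_nonneg_left hlogy hlam
    have hge : 1 ≤ (p : ℝ) ^ δ := Real.one_le_rpow hp1' hδ
    have hle : (p : ℝ) ^ δ - 1 ≤ δ * Real.log p * Real.exp lam := by
      rw [Real.rpow_def_of_pos hp0, mul_comm (Real.log p) δ]
      refine exp_sub_one_le.trans ?_
      exact mul_le_mul_of_nonneg_left (Real.exp_le_exp.2 hx) (mul_nonneg hδ hlogp)
    have hinv : 1 / ((p : ℝ) - c) ≤ 2 / p := by
      rw [div_le_div_iff₀ hpc hp0]
      linarith
    constructor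
    · simp only [hψ]
      exact mul_nonneg (mul_nonneg hb (by positivity)) (by linarith)
    · simp only [hψ]
      calc b * (1 / ((p : ℝ) - c)) * ((p : ℝ) ^ δ - 1)
          ≤ b * (2 / p) * (δ * Real.log p * Real.exp lam) := by
            apply mul_le_mul (mul_le_mul_of_nonneg_left hinv hb) hle (by linarith) (by positivity)
        _ = 2 * b * (δ * Real.exp lam) * (Real.log p / p) := by ring
  have h4 : ∏ p ∈ PS z y, (1 + ψ p) ≤ Real.exp (∑ p ∈ PS z y, ψ p) :=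
    Pool.Agent.W655.RK.prod_le_exp _ _ fun p hp => by linarith [(hψn p hp).1]
  have h5 : ∑ p ∈ PS z y, ψ p ≤ B := by
    have a1 : ∑ p ∈ PS z y, ψ p ≤ ∑ p ∈ PS z y, 2 * b * (δ * Real.exp lam) * (Real.log p / p) :=
      sum_le_sum fun p hp => (hψn p hp).2
    rw [← mul_sum] at a1
    have a2 : ∑ p ∈ PS z y, Real.log p / p ≤ ∑ p ∈ (Finset.Icc 1 y).filter Nat.Prime,
        Real.log p / p := by
      refine sum_le_sum_of_subset_of_nonneg ?_ fun p hp _ => ?_
      · intro p hp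
        exact mem_filter.2 ⟨mem_Icc.2 ⟨(Pool.Agent.W655.RK.PS_prime hp).one_lt.le,
          Pool.Agent.W655.RK.PS_le hp⟩, Pool.Agent.W655.RK.PS_prime hp⟩
      · have : (1 : ℝ) ≤ p := by exact_mod_cast (mem_filter.1 hp).2.one_lt.le
        exact div_nonneg (Real.log_nonneg this) (by linarith)
    have a3 := (abs_le.1 (hC1 y (by omega))).2
    have a4 : ∑ p ∈ PS z y, Real.log p / p ≤ Real.log y * (1 + |C1|) := by
      have := le_abs_self C1
      have := abs_nonneg C1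
      nlinarith
    have a5 : 0 ≤ 2 * b * (δ * Real.exp lam) := by positivity
    calc ∑ p ∈ PS z y, ψ p ≤ 2 * b * (δ * Real.exp lam) * ∑ p ∈ PS z y, Real.log p / p := a1
      _ ≤ 2 * b * (δ * Real.exp lam) * (Real.log y * (1 + |C1|)) := mul_le_mul_of_nonneg_left a4 a5
      _ = B := by
        have : δ * Real.log y = lam := by
          rw [hδd]
          exact div_mul_cancel₀ _ (by linarith)
        rw [hB]
        calc 2 * b * (δ * Real.exp lam) * (Real.log y * (1 + |C1|))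
            = 2 * b * ((δ * Real.log y) * Real.exp lam * (1 + |C1|)) := by ring
          _ = _ := by rw [this]
  have h6 : 0 ≤ ∑ d ∈ (PP z y).divisors, φ d := sum_nonneg hφn
  calc ∑ e ∈ Tup J z y, ∏ j, φ (e j) ≤ (∑ d ∈ (PP z y).divisors, φ d) ^ Fintype.card J := by
        rw [← h2]; exact h1
    _ ≤ Real.exp B ^ Fintype.card J := by
        refine pow_le_pow_left₀ h6 ?_ _
        rw [h3]
        exact h4.trans (Real.exp_le_exp.2 h5)

theorem rs_g (J : Type) [Fintype J] [DecidableEq J] (z c N : ℕ) (G : (J → ℕ) → ℝ)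
    (b C' lam : ℝ) (hb : 0 ≤ b) (hz : 2 * c + 2 ≤ z) (hlam : 0 ≤ lam) (hG : ∀ s, 0 ≤ G s)
    (hg : ∀ y, z < y → ∀ s e : J → ℕ, (fun j => s j * e j) ∈ Tup J z y →
      G (fun j => s j * e j) ≤ b ^ (∑ j, (e j).primeFactors.card) * G s)
    (hS : ∀ y, z < y → ∑ s ∈ Tup J z y, G s * ∏ j, gw 1 c (s j) ≤ C' * (Real.log y) ^ N) :
    ∃ C : ℝ, ∀ y, z < y →
      ∑ s ∈ Tup J z y, G s * (∏ j, gw 1 c (s j)) *
        (∏ j, (s j : ℝ)) ^ (lam / Real.log y) ≤ C * (Real.log y) ^ N := by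
  obtain ⟨E, hE0, hE⟩ := bracket_g J z c b lam hb hz hlam
  refine ⟨E * C', fun y hy => ?_⟩
  have hy3 : 3 ≤ y := by omega
  have hyr : (3 : ℝ) ≤ y := by exact_mod_cast hy3
  have hl1 : 1 < Real.log y := by
    rw [Real.lt_log_iff_exp_lt (by linarith)]
    have := Real.exp_one_lt_d9
    linarith
  have hδ : 0 ≤ lam / Real.log y := div_nonneg hlam (by linarith)
  have hm := main_ineq_g J z y G (lam / Real.log y) b hb c (by omega) hδ hG (hg y hy)
  have hn : 0 ≤ ∑ s ∈ Tup J z y, G s * ∏ j, gw 1 c (s j) := by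
    refine sum_nonneg fun s hs => mul_nonneg (hG s) (prod_nonneg fun j _ => ?_)
    exact gw1_nonneg (by omega) ((mem_Tup.1 hs).1 j)
  calc _ ≤ _ := hm
    _ ≤ E * ∑ s ∈ Tup J z y, G s * ∏ j, gw 1 c (s j) :=
        mul_le_mul_of_nonneg_right (hE y hy) hn
    _ ≤ E * (C' * (Real.log y) ^ N) := mul_le_mul_of_nonneg_left (hS y hy) hE0
    _ = E * C' * (Real.log y) ^ N := by ring

end Pool.Agent.L0h5.NT
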