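import Mathlib
import Pool.Agent.W45.RT.ANT
import Pool.Agent.W358.RK2.GR
import Pool.Agent.L0h5.NT.RSg
import Pool.Agent.L0h5.NT.RVg

/-!
# The abstract summation of Nair and Tenenbaum, general base and general constant
-/

namespace Pool.Agent.L0h5.NT

open Finset Pool.Agent.W262.RK Pool.Agent.W307.RT

open Pool.Agent.W45.RT (rpG_mem S1_mem S2_mem S1_mul_S2 splitSum)

/-- the weight of the squares -/
noncomputable def bVg {J : Type} [Fintype J] (b : ℝ) (c : ℕ) (v : J → ℕ) : ℝ :=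
  ∏ j, b ^ (v j).primeFactors.card * (gw 1 c (v j) / v j)

lemma bVg_nn {J : Type} [Fintype J] [DecidableEq J] {b : ℝ} (hb : 0 ≤ b) {c z y : ℕ} (hz : c ≤ z)
    {d : J → ℕ} (hd : d ∈ Tup J z y) : 0 ≤ bVg b c d :=
  prod_nonneg fun j _ => mul_nonneg (by positivity) (div_nonneg (gw_nn hz hd j) (by positivity))

variable {J : Type} [Fintype J] [DecidableEq J] {Ω : Type}

open Classical in
/-- one level -/
lemma lev {f : Ω → J → ℤ} {z : ℕ} {G : (J → ℕ) → ℝ} {R : Ω → ℝ} {X y Y k : ℕ} {TX : Finset Ω}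
    {SX : ℝ} (hSX : 0 ≤ SX) {c N : ℕ} (hz : 2 * c + 2 ≤ z)
    {b C D A1 A2 A3 lam : ℝ} (hb0 : 0 ≤ b) (hB : ∀ ω ∈ TX, Gd z (f ω)) (hG : ∀ s, 0 ≤ G s) (hR : ∀ t, 0 ≤ R t)
    (hC : 0 ≤ C) (hD : 1 ≤ D) (hA2 : 0 ≤ A2) (hA3 : 0 ≤ A3) (hgr : GR)
    (hlam : lam = 16 * (Real.log D + 1))
    (h1 : ∀ y, z < y → ∑ s ∈ Tup J z y, G s * (∏ j, gw 1 c (s j)) *
      (∏ j, (s j : ℝ)) ^ (lam / Real.log y) ≤ A1 * (Real.log y) ^ N)
    (h2 : ∀ y, z < y → ∑ v ∈ Tup J z y, bVg b c v *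
      (∏ j, (v j : ℝ)) ^ (lam / Real.log y) ≤ A2)
    (h3 : ∀ y Y : ℕ, 3 ≤ y → Y ≤ (y + 1) ^ 2 → ∑ u ∈ Tup J y Y, (∏ j, b ^ (u j).primeFactors.card / (u j : ℝ)) *
      (∏ j, (u j : ℝ)) ^ (lam / Real.log y) ≤ A3)
    (hH : ∀ s ∈ Tup J z y,
      ∀ v ∈ Tup J z y, ∀ u ∈ Tup J y Y, (∏ j, s j * v j * u j) ^ 8 ≤ X →
      ∀ T' : Finset Ω, T' ⊆ TX → (∀ ω ∈ T', S1 z y (f ω) = s ∧ S2 z y (f ω) = v ∧
        ∀ j, (u j : ℤ) ∣ f ω j) → ∑ ω ∈ T', R ω ≤
        C * D ^ k * SX * (G s * ∏ j, gw 1 c (s j)) *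
          (∏ j, b ^ (v j).primeFactors.card * (gw 1 c (v j) / v j)) *
          (∏ j, b ^ (u j).primeFactors.card / (u j : ℝ)) / (Real.log y) ^ N)
    (hzy : z < y) (hy3 : 3 ≤ y) (hyk : y ^ k ≤ X)
    (hyY : y ≤ Y) (hY : Y ≤ (y + 1) ^ 2) (hY16 : Y ^ 16 ≤ X) :
    ∑ t ∈ TX.filter (fun t : Ω => (∏ j, rp z y (f t j)) ^ 8 ≤ X ∧
      X < (∏ j, rp z Y (f t j)) ^ 8), R t ≤ C * A1 * A2 * A3 * SX * Real.exp (-k) := by
  classical
  have hX1 : 1 ≤ X := le_trans (Nat.one_le_pow _ _ (by omega)) hyk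
  have hXr : (1 : ℝ) ≤ X := by exact_mod_cast hX1
  have hyr : (3 : ℝ) ≤ y := by exact_mod_cast hy3
  have hlogy : 0 < Real.log y := Real.log_pos (by linarith)
  have hlogD : 0 ≤ Real.log D := Real.log_nonneg hD
  have hlam0 : 0 < lam := by rw [hlam]; linarith
  set δ := lam / Real.log y with hδ
  have hδ0 : 0 < δ := div_pos hlam0 hlogy
  have hcz : c ≤ z := by omega
  set A := ((Tup J z y ×ˢ Tup J z y) ×ˢ Tup J y Y).filter (fun q =>
    (∏ j, q.1.1 j * q.1.2 j * q.2 j) ^ 8 ≤ X ∧ X < (∏ j, q.1.1 j * q.1.2 j * q.2 j) ^ 16) with hA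
  set S : ((J → ℕ) × (J → ℕ)) × (J → ℕ) → Finset Ω := fun q => TX.filter (fun t : Ω =>
    S1 z y (f t) = q.1.1 ∧ S2 z y (f t) = q.1.2 ∧ ∀ j, (q.2 j : ℤ) ∣ f t j) with hS
  have hcov : ∀ t ∈ TX.filter (fun t : Ω => (∏ j, rp z y (f t j)) ^ 8 ≤ X ∧
      X < (∏ j, rp z Y (f t j)) ^ 8),
      ∃ q ∈ A, t ∈ S q := by
    intro t ht
    rw [mem_filter] at ht
    obtain ⟨ht1, ht2, ht3⟩ := ht
    have hBt := hB t ht1
    obtain ⟨u, hu, hug, hu8, hu16⟩ := hgr J z y Y X hzy.le hyY hY16 (S1 z y (f t)) (S2 z y (f t))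
      (fun j => rp y Y (f t j)) (rpG_mem hBt hzy.le)
      (by rw [prod_congr rfl (fun j _ => S1_mul_S2 (f t) z y j)]; exact ht2)
      (by
        rw [prod_congr rfl (fun j _ => by rw [S1_mul_S2 (f t) z y j, ← rp_mul hzy.le hyY])]
        exact ht3)
    refine ⟨((S1 z y (f t), S2 z y (f t)), u), ?_, ?_⟩
    · rw [hA, mem_filter, mem_product, mem_product]
      exact ⟨⟨⟨S1_mem hBt, S2_mem hBt⟩, hu⟩, hu8, hu16⟩
    · rw [hS, mem_filter]
      refine ⟨ht1, rfl, rfl, fun j => ?_⟩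
      have h4 : (rp y Y (f t j) : ℤ) ∣ f t j :=
        prodS_dvd (fun p hp => (mem_PS.1 (mem_filter.1 hp).1).2) (fun p hp => (mem_filter.1 hp).2)
      exact (Int.natCast_dvd_natCast.2 (hug j)).trans h4
  refine (splitSum hR hcov).trans ?_
  -- the bound for each `q`
  set W : ℝ := C * D ^ k * SX / (Real.log y) ^ N * (X : ℝ) ^ (-(δ / 16)) with hW
  have hW0 : 0 ≤ W := by positivity
  have hq : ∀ q ∈ A, ∑ t ∈ S q, R t ≤ W *
      ((G q.1.1 * (∏ j, gw 1 c (q.1.1 j)) * (∏ j, (q.1.1 j : ℝ)) ^ δ) *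
        (bVg b c q.1.2 * (∏ j, (q.1.2 j : ℝ)) ^ δ) *
        ((∏ j, b ^ (q.2 j).primeFactors.card / (q.2 j : ℝ)) * (∏ j, (q.2 j : ℝ)) ^ δ)) := by
    intro q hq
    rw [hA, mem_filter, mem_product, mem_product] at hq
    obtain ⟨⟨⟨hs, hv⟩, hu⟩, hq8, hq16⟩ := hq
    refine (hH q.1.1 hs q.1.2 hv q.2 hu hq8 (S q) (filter_subset _ _)
      (fun ω hω => (mem_filter.1 hω).2)).trans ?_
    have ha : 0 ≤ G q.1.1 * ∏ j, gw 1 c (q.1.1 j) :=
      mul_nonneg (hG _) (prod_nonneg fun j _ => gw_nn hcz hs j)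
    have hb : 0 ≤ bVg b c q.1.2 := bVg_nn hb0 hcz hv
    have hc : 0 ≤ ∏ j, b ^ (q.2 j).primeFactors.card / (q.2 j : ℝ) := prod_nonneg fun j _ => by positivity
    have hp1 := prod_cast_ge_one hs
    have hp2 := prod_cast_ge_one hv
    have hp3 := prod_cast_ge_one hu
    have hfac : 1 ≤ (X : ℝ) ^ (-(δ / 16)) * ((∏ j, (q.1.1 j : ℝ)) ^ δ *
        (∏ j, (q.1.2 j : ℝ)) ^ δ * (∏ j, (q.2 j : ℝ)) ^ δ) := by
      rw [← Real.mul_rpow (by positivity) (by positivity),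
        ← Real.mul_rpow (by positivity) (by positivity)]
      set P : ℝ := (∏ j, (q.1.1 j : ℝ)) * (∏ j, (q.1.2 j : ℝ)) * (∏ j, (q.2 j : ℝ)) with hP
      have hP1 : 1 ≤ P := by
        rw [hP]
        exact one_le_mul_of_one_le_of_one_le (one_le_mul_of_one_le_of_one_le hp1 hp2) hp3
      have hPX : (X : ℝ) ≤ P ^ (16 : ℕ) := by
        have h5 : (X : ℝ) ≤ (((∏ j, q.1.1 j * q.1.2 j * q.2 j) ^ 16 : ℕ) : ℝ) := by
          exact_mod_cast hq16.le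
        push_cast at h5
        rw [prod_mul_distrib, prod_mul_distrib] at h5
        exact h5
      have hPd : (X : ℝ) ^ (δ / 16) ≤ P ^ δ := by
        calc (X : ℝ) ^ (δ / 16) ≤ (P ^ (16 : ℕ)) ^ (δ / 16) :=
              Real.rpow_le_rpow (by positivity) hPX (by positivity)
          _ = P ^ δ := by
              rw [← Real.rpow_natCast, ← Real.rpow_mul (by positivity)]
              congr 1
              push_cast
              ring
      rw [Real.rpow_neg (by positivity)]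
      have h6 : 0 < (X : ℝ) ^ (δ / 16) := by positivity
      rw [inv_mul_eq_div, one_le_div h6]
      exact hPd
    have hbase : 0 ≤ C * D ^ k * SX / (Real.log y) ^ N * ((G q.1.1 * ∏ j, gw 1 c (q.1.1 j)) *
        bVg b c q.1.2 * ∏ j, b ^ (q.2 j).primeFactors.card / (q.2 j : ℝ)) :=
      mul_nonneg (by positivity) (mul_nonneg (mul_nonneg ha hb) hc)
    calc C * D ^ k * SX * (G q.1.1 * ∏ j, gw 1 c (q.1.1 j)) *
          (∏ j, b ^ (q.1.2 j).primeFactors.card * (gw 1 c (q.1.2 j) / q.1.2 j)) *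
          (∏ j, b ^ (q.2 j).primeFactors.card / (q.2 j : ℝ)) / (Real.log y) ^ N
        = C * D ^ k * SX / (Real.log y) ^ N * ((G q.1.1 * ∏ j, gw 1 c (q.1.1 j)) *
        bVg b c q.1.2 * ∏ j, b ^ (q.2 j).primeFactors.card / (q.2 j : ℝ)) := by unfold bVg; ring
      _ ≤ C * D ^ k * SX / (Real.log y) ^ N * ((G q.1.1 * ∏ j, gw 1 c (q.1.1 j)) *
        bVg b c q.1.2 * ∏ j, b ^ (q.2 j).primeFactors.card / (q.2 j : ℝ)) * ((X : ℝ) ^ (-(δ / 16)) *
          ((∏ j, (q.1.1 j : ℝ)) ^ δ * (∏ j, (q.1.2 j : ℝ)) ^ δ * (∏ j, (q.2 j : ℝ)) ^ δ)) :=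
          le_mul_of_one_le_right hbase hfac
      _ = _ := by rw [hW]; ring
  refine (sum_le_sum hq).trans ?_
  rw [← mul_sum]
  have hfull : ∑ q ∈ A, ((G q.1.1 * (∏ j, gw 1 c (q.1.1 j)) * (∏ j, (q.1.1 j : ℝ)) ^ δ) *
        (bVg b c q.1.2 * (∏ j, (q.1.2 j : ℝ)) ^ δ) *
        ((∏ j, b ^ (q.2 j).primeFactors.card / (q.2 j : ℝ)) * (∏ j, (q.2 j : ℝ)) ^ δ)) ≤
      (∑ s ∈ Tup J z y, G s * (∏ j, gw 1 c (s j)) * (∏ j, (s j : ℝ)) ^ δ) *
      (∑ v ∈ Tup J z y, bVg b c v * (∏ j, (v j : ℝ)) ^ δ) *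
      (∑ u ∈ Tup J y Y, (∏ j, b ^ (u j).primeFactors.card / (u j : ℝ)) * (∏ j, (u j : ℝ)) ^ δ) := by
    rw [sum_mul_sum, ← sum_product', sum_mul_sum, ← sum_product']
    refine sum_le_sum_of_subset_of_nonneg (filter_subset _ _) (fun q hq _ => ?_)
    rw [mem_product, mem_product] at hq
    obtain ⟨⟨hs, hv⟩, hu⟩ := hq
    have hp1 := prod_cast_ge_one hs
    have hp2 := prod_cast_ge_one hv
    have hp3 := prod_cast_ge_one hu
    refine mul_nonneg (mul_nonneg ?_ ?_) ?_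
    · exact mul_nonneg (mul_nonneg (hG _) (prod_nonneg fun j _ => gw_nn hcz hs j)) (by positivity)
    · exact mul_nonneg (bVg_nn hb0 hcz hv) (by positivity)
    · exact mul_nonneg (prod_nonneg fun j _ => by positivity) (by positivity)
  have hs0 : 0 ≤ ∑ s ∈ Tup J z y, G s * (∏ j, gw 1 c (s j)) * (∏ j, (s j : ℝ)) ^ δ :=
    sum_nonneg fun s hs => by
      have hp1 := prod_cast_ge_one hs
      exact mul_nonneg (mul_nonneg (hG _) (prod_nonneg fun j _ => gw_nn hcz hs j)) (by positivity)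
  have hv0 : 0 ≤ ∑ v ∈ Tup J z y, bVg b c v * (∏ j, (v j : ℝ)) ^ δ :=
    sum_nonneg fun v hv => by
      have hp1 := prod_cast_ge_one hv
      exact mul_nonneg (bVg_nn hb0 hcz hv) (by positivity)
  have hu0 : 0 ≤ ∑ u ∈ Tup J y Y, (∏ j, b ^ (u j).primeFactors.card / (u j : ℝ)) * (∏ j, (u j : ℝ)) ^ δ :=
    sum_nonneg fun u hu => by
      have hp1 := prod_cast_ge_one hu
      exact mul_nonneg (prod_nonneg fun j _ => by positivity) (by positivity)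
  have hbd : (∑ s ∈ Tup J z y, G s * (∏ j, gw 1 c (s j)) * (∏ j, (s j : ℝ)) ^ δ) *
      (∑ v ∈ Tup J z y, bVg b c v * (∏ j, (v j : ℝ)) ^ δ) *
      (∑ u ∈ Tup J y Y, (∏ j, b ^ (u j).primeFactors.card / (u j : ℝ)) * (∏ j, (u j : ℝ)) ^ δ) ≤
      (A1 * (Real.log y) ^ N) * A2 * A3 := by
    have e1 := h1 y hzy
    have e2 := h2 y hzy
    have e3 := h3 y Y hy3 hY
    exact mul_le_mul (mul_le_mul e1 e2 hv0 (hs0.trans e1)) e3 hu0
      (mul_nonneg (hs0.trans e1) hA2)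
  have hfin := mul_le_mul_of_nonneg_left (hfull.trans hbd) hW0
  refine hfin.trans ?_
  have hA1 : 0 ≤ A1 := by
    have e1 := hs0.trans (h1 y hzy)
    have e2 : 0 < (Real.log y) ^ N := by positivity
    exact nonneg_of_mul_nonneg_left e1 e2
  -- the exponential saving
  have hexp : D ^ k * (X : ℝ) ^ (-(δ / 16)) ≤ Real.exp (-k) := by
    have hXpos : (0 : ℝ) < X := by linarith
    have hlX : k * Real.log y ≤ Real.log X := by
      rw [← Real.log_pow]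
      exact Real.log_le_log (by positivity) (by exact_mod_cast hyk)
    have e1 : D ^ k = Real.exp (k * Real.log D) := by
      rw [← Real.log_pow, Real.exp_log (by positivity)]
    have e2 : (X : ℝ) ^ (-(δ / 16)) = Real.exp (-(δ / 16) * Real.log X) := by
      rw [Real.rpow_def_of_pos hXpos, mul_comm]
    rw [e1, e2, ← Real.exp_add]
    apply Real.exp_le_exp.2
    have e3 : δ / 16 * (k * Real.log y) ≤ δ / 16 * Real.log X :=
      mul_le_mul_of_nonneg_left hlX (by positivity)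
    have e4 : δ / 16 * (k * Real.log y) = k * (Real.log D + 1) := by
      rw [hδ, hlam]
      field_simp
    rw [e4] at e3
    linarith
  have hL : (Real.log y) ^ N ≠ 0 := by positivity
  calc W * (A1 * (Real.log y) ^ N * A2 * A3)
      = (C * A1 * A2 * A3 * SX) * (D ^ k * (X : ℝ) ^ (-(δ / 16))) := by
        rw [hW]; field_simp
    _ ≤ (C * A1 * A2 * A3 * SX) * Real.exp (-k) :=
        mul_le_mul_of_nonneg_left hexp (by positivity)


open Classical in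
/-- the first level -/
lemma lev0 {f : Ω → J → ℤ} {z : ℕ} {G : (J → ℕ) → ℝ} {R : Ω → ℝ} {X y k : ℕ} {TX : Finset Ω}
    {SX : ℝ} (hSX : 0 ≤ SX) {c N : ℕ} (hz : 2 * c + 2 ≤ z)
    {b C D A1 A2 lam : ℝ} (hb0 : 0 ≤ b) (hB : ∀ ω ∈ TX, Gd z (f ω)) (hG : ∀ s, 0 ≤ G s) (hR : ∀ t, 0 ≤ R t)
    (hC : 0 ≤ C) (hD : 1 ≤ D) (hA2 : 0 ≤ A2) (hlam : 0 ≤ lam)
    (h1 : ∀ y, z < y → ∑ s ∈ Tup J z y, G s * (∏ j, gw 1 c (s j)) *
      (∏ j, (s j : ℝ)) ^ (lam / Real.log y) ≤ A1 * (Real.log y) ^ N)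
    (h2 : ∀ y, z < y → ∑ v ∈ Tup J z y, bVg b c v *
      (∏ j, (v j : ℝ)) ^ (lam / Real.log y) ≤ A2)
    (hH : ∀ s ∈ Tup J z y,
      ∀ v ∈ Tup J z y, ∀ u ∈ Tup J y y, (∏ j, s j * v j * u j) ^ 8 ≤ X →
      ∀ T' : Finset Ω, T' ⊆ TX → (∀ ω ∈ T', S1 z y (f ω) = s ∧ S2 z y (f ω) = v ∧
        ∀ j, (u j : ℤ) ∣ f ω j) → ∑ ω ∈ T', R ω ≤
        C * D ^ k * SX * (G s * ∏ j, gw 1 c (s j)) *
          (∏ j, b ^ (v j).primeFactors.card * (gw 1 c (v j) / v j)) *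
          (∏ j, b ^ (u j).primeFactors.card / (u j : ℝ)) / (Real.log y) ^ N)
    (hzy : z < y) (hy3 : 3 ≤ y) :
    ∑ t ∈ TX.filter (fun t : Ω => (∏ j, rp z y (f t j)) ^ 8 ≤ X), R t ≤
      C * D ^ k * A1 * A2 * SX := by
  classical
  have hyr : (3 : ℝ) ≤ y := by exact_mod_cast hy3
  have hlogy : 0 < Real.log y := Real.log_pos (by linarith)
  set δ := lam / Real.log y with hδ
  have hδ0 : 0 ≤ δ := div_nonneg hlam hlogy.le
  have hcz : c ≤ z := by omega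
  set A := (Tup J z y ×ˢ Tup J z y).filter (fun q => (∏ j, q.1 j * q.2 j) ^ 8 ≤ X) with hA
  set S : (J → ℕ) × (J → ℕ) → Finset Ω := fun q => TX.filter (fun t : Ω =>
    S1 z y (f t) = q.1 ∧ S2 z y (f t) = q.2 ∧
    ∀ j, (((fun _ => 1 : J → ℕ) j : ℕ) : ℤ) ∣ f t j) with hS
  have hcov : ∀ t ∈ TX.filter (fun t : Ω => (∏ j, rp z y (f t j)) ^ 8 ≤ X),
      ∃ q ∈ A, t ∈ S q := by
    intro t ht
    rw [mem_filter] at ht
    obtain ⟨ht1, ht2⟩ := ht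
    have hBt := hB t ht1
    refine ⟨(S1 z y (f t), S2 z y (f t)), ?_, ?_⟩
    · rw [hA, mem_filter, mem_product]
      refine ⟨⟨S1_mem hBt, S2_mem hBt⟩, ?_⟩
      rw [prod_congr rfl (fun j _ => S1_mul_S2 (f t) z y j)]
      exact ht2
    · rw [hS, mem_filter]
      refine ⟨ht1, rfl, rfl, fun j => ?_⟩
      simp
  refine (splitSum hR hcov).trans ?_
  set W : ℝ := C * D ^ k * SX / (Real.log y) ^ N with hW
  have hW0 : 0 ≤ W := by positivity
  have hq : ∀ q ∈ A, ∑ t ∈ S q, R t ≤ W *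
      ((G q.1 * (∏ j, gw 1 c (q.1 j)) * (∏ j, (q.1 j : ℝ)) ^ δ) *
        (bVg b c q.2 * (∏ j, (q.2 j : ℝ)) ^ δ)) := by
    intro q hq
    rw [hA, mem_filter, mem_product] at hq
    obtain ⟨⟨hs, hv⟩, hq8⟩ := hq
    refine (hH q.1 hs q.2 hv (fun _ => 1) (one_mem_Tup _ _)
      (by simpa using hq8) (S q) (filter_subset _ _)
      (fun ω hω => (mem_filter.1 hω).2)).trans ?_
    have ha : 0 ≤ G q.1 * ∏ j, gw 1 c (q.1 j) :=
      mul_nonneg (hG _) (prod_nonneg fun j _ => gw_nn hcz hs j)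
    have hb : 0 ≤ bVg b c q.2 := bVg_nn hb0 hcz hv
    have hp1 := Real.one_le_rpow (prod_cast_ge_one hs) hδ0
    have hp2 := Real.one_le_rpow (prod_cast_ge_one hv) hδ0
    calc C * D ^ k * SX * (G q.1 * ∏ j, gw 1 c (q.1 j)) *
          (∏ j, b ^ (q.2 j).primeFactors.card * (gw 1 c (q.2 j) / q.2 j)) *
          (∏ j : J, b ^ ((fun _ => 1 : J → ℕ) j).primeFactors.card /
            (((fun _ => 1 : J → ℕ) j : ℕ) : ℝ)) / (Real.log y) ^ N
        = W * ((G q.1 * ∏ j, gw 1 c (q.1 j)) * bVg b c q.2) := by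
          rw [hW]; unfold bVg
          simp only [Nat.cast_one, div_one, Nat.primeFactors_one, card_empty, pow_zero,
            prod_const_one]
          ring
      _ ≤ W * (((G q.1 * ∏ j, gw 1 c (q.1 j)) * (∏ j, (q.1 j : ℝ)) ^ δ) *
            (bVg b c q.2 * (∏ j, (q.2 j : ℝ)) ^ δ)) :=
          mul_le_mul_of_nonneg_left (mul_le_mul (le_mul_of_one_le_right ha hp1)
            (le_mul_of_one_le_right hb hp2) hb (mul_nonneg ha (by linarith))) hW0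
      _ = _ := by ring
  refine (sum_le_sum hq).trans ?_
  rw [← mul_sum]
  have hfull : ∑ q ∈ A, ((G q.1 * (∏ j, gw 1 c (q.1 j)) * (∏ j, (q.1 j : ℝ)) ^ δ) *
        (bVg b c q.2 * (∏ j, (q.2 j : ℝ)) ^ δ)) ≤
      (∑ s ∈ Tup J z y, G s * (∏ j, gw 1 c (s j)) * (∏ j, (s j : ℝ)) ^ δ) *
      (∑ v ∈ Tup J z y, bVg b c v * (∏ j, (v j : ℝ)) ^ δ) := by
    rw [sum_mul_sum, ← sum_product']
    refine sum_le_sum_of_subset_of_nonneg (filter_subset _ _) (fun q hq _ => ?_)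
    rw [mem_product] at hq
    obtain ⟨hs, hv⟩ := hq
    have hp1 := prod_cast_ge_one hs
    have hp2 := prod_cast_ge_one hv
    refine mul_nonneg ?_ ?_
    · exact mul_nonneg (mul_nonneg (hG _) (prod_nonneg fun j _ => gw_nn hcz hs j)) (by positivity)
    · exact mul_nonneg (bVg_nn hb0 hcz hv) (by positivity)
  have hs0 : 0 ≤ ∑ s ∈ Tup J z y, G s * (∏ j, gw 1 c (s j)) * (∏ j, (s j : ℝ)) ^ δ :=
    sum_nonneg fun s hs => by
      have hp1 := prod_cast_ge_one hs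
      exact mul_nonneg (mul_nonneg (hG _) (prod_nonneg fun j _ => gw_nn hcz hs j)) (by positivity)
  have hv0 : 0 ≤ ∑ v ∈ Tup J z y, bVg b c v * (∏ j, (v j : ℝ)) ^ δ :=
    sum_nonneg fun v hv => by
      have hp1 := prod_cast_ge_one hv
      exact mul_nonneg (bVg_nn hb0 hcz hv) (by positivity)
  have hbd : (∑ s ∈ Tup J z y, G s * (∏ j, gw 1 c (s j)) * (∏ j, (s j : ℝ)) ^ δ) *
      (∑ v ∈ Tup J z y, bVg b c v * (∏ j, (v j : ℝ)) ^ δ) ≤ (A1 * (Real.log y) ^ N) * A2 :=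
    mul_le_mul (h1 y hzy) (h2 y hzy) hv0 (hs0.trans (h1 y hzy))
  refine (mul_le_mul_of_nonneg_left (hfull.trans hbd) hW0).trans (le_of_eq ?_)
  have hL : (Real.log y) ^ N ≠ 0 := by positivity
  rw [hW]; field_simp

/-- the abstract summation of Nair and Tenenbaum, general base and general constant -/
theorem ant_g (J : Type) [Fintype J] [DecidableEq J] (Ω : Type) (T : ℕ → Finset Ω)
    (f : Ω → J → ℤ) (S : ℕ → ℝ) (z c N : ℕ) (G : (J → ℕ) → ℝ) (R : Ω → ℝ) (b C C' D : ℝ)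
    (K y0 : ℕ) (hb0 : 0 ≤ b)
    (hz : 2 * c + 2 ≤ z) (hTT : ∀ X Y, X ≤ Y → T X ⊆ T Y) (hS1 : ∀ X, 1 ≤ X → 1 ≤ S X)
    (hB : ∀ X, ∀ ω ∈ T X, Gd z (f ω)) (hG : ∀ s, 0 ≤ G s) (hR : ∀ ω, 0 ≤ R ω) (hC : 0 ≤ C)
    (hD : 1 ≤ D) (hK : 1 ≤ K)
    (hsub : ∀ y, z < y → ∀ s e : J → ℕ, (fun j => s j * e j) ∈ Tup J z y →
      G (fun j => s j * e j) ≤ b ^ (∑ j, (e j).primeFactors.card) * G s)
    (havg : ∀ y, z < y → ∑ s ∈ Tup J z y, G s * ∏ j, gw 1 c (s j) ≤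
      C' * (Real.log y) ^ N)
    (hH : ∀ X y Y k : ℕ, y0 ≤ y → z < y → y ^ K ≤ X → X < (y + 1) ^ k → ∀ s ∈ Tup J z y,
      ∀ v ∈ Tup J z y, ∀ u ∈ Tup J y Y, (∏ j, s j * v j * u j) ^ 8 ≤ X →
      ∀ T' : Finset Ω, T' ⊆ T X → (∀ ω ∈ T', S1 z y (f ω) = s ∧ S2 z y (f ω) = v ∧
        ∀ j, (u j : ℤ) ∣ f ω j) →
      ∑ ω ∈ T', R ω ≤
        C * D ^ k * S X * (G s * ∏ j, gw 1 c (s j)) *
          (∏ j, b ^ (v j).primeFactors.card * (gw 1 c (v j) / v j)) *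
          (∏ j, b ^ (u j).primeFactors.card / (u j : ℝ)) / (Real.log y) ^ N) :
    ∃ C2 : ℝ, ∀ X : ℕ, 1 ≤ X → ∑ ω ∈ T X, R ω ≤ C2 * S X := by
  classical
  have hgr : GR := Pool.Agent.W358.RK2.gr
  have hlogD : 0 ≤ Real.log D := Real.log_nonneg hD
  set lam : ℝ := 16 * (Real.log D + 1) with hlam
  have hlam0 : 0 ≤ lam := by rw [hlam]; linarith
  obtain ⟨A1, hA1⟩ := rs_g J z c N G b C' lam hb0 hz hlam0 hG hsub havg
  obtain ⟨A2', hA2'⟩ := rv_g J z c b lam hb0 hz hlam0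
  obtain ⟨A3', hA3'⟩ := ru_g J b lam hb0 hlam0
  set A2 := max A2' 0 with hA2d
  set A3 := max A3' 0 with hA3d
  have hA2 : ∀ y, z < y → ∑ v ∈ Tup J z y, bVg b c v *
      (∏ j, (v j : ℝ)) ^ (lam / Real.log y) ≤ A2 := fun y hy =>
    (hA2' y hy).trans (le_max_left _ _)
  have hA3 : ∀ y Y : ℕ, 3 ≤ y → Y ≤ (y + 1) ^ 2 → ∑ u ∈ Tup J y Y, (∏ j, b ^ (u j).primeFactors.card / (u j : ℝ)) *
      (∏ j, (u j : ℝ)) ^ (lam / Real.log y) ≤ A3 := fun y Y h1 h2 =>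
    (hA3' y Y h1 h2).trans (le_max_left _ _)
  have hA20 : 0 ≤ A2 := le_max_right _ _
  have hA30 : 0 ≤ A3 := le_max_right _ _
  -- the constant `A1` is nonnegative
  have hcz : c ≤ z := by omega
  have hA10 : 0 ≤ A1 := by
    have h1 := hA1 (z + 2) (by omega)
    have h2 : 0 ≤ ∑ s ∈ Tup J z (z + 2), G s * (∏ j, gw 1 c (s j)) *
        (∏ j, (s j : ℝ)) ^ (lam / Real.log ((z + 2 : ℕ) : ℝ)) := sum_nonneg fun s hs => by
      have hp1 := prod_cast_ge_one hs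
      exact mul_nonneg (mul_nonneg (hG _) (prod_nonneg fun j _ => gw_nn hcz hs j)) (by positivity)
    have h3 : 0 < (Real.log ((z + 2 : ℕ) : ℝ)) ^ N := by
      apply pow_pos
      apply Real.log_pos
      exact_mod_cast (by omega : 1 < z + 2)
    exact nonneg_of_mul_nonneg_left (h2.trans h1) h3
  set K0 : ℕ := K + 16 with hK0
  have hK01 : 1 ≤ K0 := by omega
  set Ys : ℕ := y0 + z + 3 with hYs
  set M : ℕ := PP z (Ys ^ 2) with hM
  set X0 : ℕ := Ys ^ K0 + M ^ 8 with hX0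
  set B0 : ℝ := C * D ^ K0 * A1 * A2 with hB0
  set B1 : ℝ := C * A1 * A2 * A3 with hB1
  have hB00 : 0 ≤ B0 := by positivity
  have hB10 : 0 ≤ B1 := by positivity
  set R0 : ℝ := ∑ t ∈ T X0, R t with hR0
  have hR00 : 0 ≤ R0 := sum_nonneg fun t _ => hR t
  refine ⟨R0 + B0 + B1 * 2, fun X hX => ?_⟩
  have hXr : (1 : ℝ) ≤ S X := hS1 X hX
  rcases Nat.lt_or_ge X X0 with hXX | hXX
  · have h1 : ∑ t ∈ T X, R t ≤ R0 :=
      sum_le_sum_of_subset_of_nonneg (hTT X X0 hXX.le) (fun t _ _ => hR t)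
    nlinarith
  -- the last level
  have hex : ∃ i, yy K0 X (i + 1) < Ys := by
    refine ⟨X, ?_⟩
    by_contra hcon
    have h1 : 2 ≤ yy K0 X (X + 1) := by omega
    have h2 := (yy_pow hK01 hX (X + 1)).2
    have h3 : 2 ^ X ≤ (yy K0 X (X + 1)) ^ (K0 * 2 ^ (X + 1)) := by
      refine (Nat.pow_le_pow_left h1 X).trans (Nat.pow_le_pow_right (by omega) ?_)
      have h4 : X < 2 ^ X := Nat.lt_two_pow_self
      have h5 : 2 ^ (X + 1) = 2 * 2 ^ X := by rw [pow_succ, mul_comm]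
      nlinarith
    have h4 : X < 2 ^ X := Nat.lt_two_pow_self
    exact absurd (h3.trans h2) (not_le.2 h4)
  set I := Nat.find hex with hI
  have hI1 : yy K0 X (I + 1) < Ys := Nat.find_spec hex
  have hIge : ∀ i, i ≤ I → Ys ≤ yy K0 X i := by
    intro i hi
    rcases Nat.eq_zero_or_pos i with h | h
    · subst h
      apply le_yy hK01
      rw [pow_zero, mul_one]
      exact le_trans (Nat.le_add_right _ _) hXX
    · have h2 := Nat.find_min hex (m := i - 1) (by omega)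
      rw [show i - 1 + 1 = i by omega] at h2
      omega
  -- the level sets
  set T0 := (T X).filter (fun t : Ω => (∏ j, rp z (yy K0 X 0) (f t j)) ^ 8 ≤ X) with hT0
  set Ti : ℕ → Finset Ω := fun i => (T X).filter (fun t : Ω =>
      (∏ j, rp z (yy K0 X (i + 1)) (f t j)) ^ 8 ≤ X ∧
      X < (∏ j, rp z (yy K0 X i) (f t j)) ^ 8) with hTi
  have hlast : ∀ t ∈ T X, (∏ j, rp z (yy K0 X I) (f t j)) ^ 8 ≤ X := by
    intro t ht
    have h1 : ∏ j, rp z (yy K0 X I) (f t j) ∣ PP z (yy K0 X I) :=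
      Tup_prod_dvd (rpG_mem (hB X t ht) le_rfl)
    have h2 : yy K0 X I ≤ Ys ^ 2 :=
      (yy_sq hK01 hX I).le.trans (Nat.pow_le_pow_left (by omega) 2)
    have h3 : PP z (yy K0 X I) ∣ M := by
      apply prod_dvd_prod_of_subset
      intro p hp
      rw [mem_PS] at hp ⊢
      exact ⟨⟨hp.1.1, hp.1.2.trans h2⟩, hp.2⟩
    have h4 : ∏ j, rp z (yy K0 X I) (f t j) ≤ M :=
      Nat.le_of_dvd (Nat.pos_of_ne_zero (PP_ne_zero _ _)) (h1.trans h3)
    have h5 := Nat.pow_le_pow_left h4 8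
    exact h5.trans (le_trans (Nat.le_add_left _ _) hXX)
  have hcov : T X ⊆ T0 ∪ (range I).biUnion Ti := by
    intro t ht
    have hex2 : ∃ i, (∏ j, rp z (yy K0 X i) (f t j)) ^ 8 ≤ X := ⟨I, hlast t ht⟩
    have hle : Nat.find hex2 ≤ I := Nat.find_min' hex2 (hlast t ht)
    rw [mem_union]
    rcases Nat.eq_zero_or_pos (Nat.find hex2) with h | h
    · left
      rw [hT0, mem_filter]
      refine ⟨ht, ?_⟩
      have := Nat.find_spec hex2
      rwa [h] at this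
    · right
      rw [mem_biUnion]
      refine ⟨Nat.find hex2 - 1, mem_range.2 (by omega), ?_⟩
      rw [hTi, mem_filter, show Nat.find hex2 - 1 + 1 = Nat.find hex2 by omega]
      refine ⟨ht, Nat.find_spec hex2, ?_⟩
      have := Nat.find_min hex2 (m := Nat.find hex2 - 1) (by omega)
      omega
  have hSX0 : 0 ≤ S X := by linarith
  have hT0b : ∑ t ∈ T0, R t ≤ B0 * S X := by
    have hz0 := hIge 0 (Nat.zero_le _)
    have hp := yy_pow hK01 hX 0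
    have hl := yy_lt (X := X) hK01 0
    rw [pow_zero, mul_one] at hp hl
    exact lev0 hSX0 hz hb0 (hB X) hG hR hC hD hA20 hlam0 hA1 hA2
      (hH X (yy K0 X 0) (yy K0 X 0) K0 (by omega) (by omega)
        (le_trans (Nat.pow_le_pow_right hp.1 (by omega)) hp.2) hl)
      (by omega) (by omega)
  have hTb : ∀ i ∈ range I, ∑ t ∈ Ti i, R t ≤ B1 * S X * (1 / 2) ^ i := by
    intro i hi
    rw [mem_range] at hi
    have hz0 := hIge (i + 1) (by omega)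
    have hp := yy_pow hK01 hX (i + 1)
    have hp' := yy_pow hK01 hX i
    have hl := yy_lt (X := X) hK01 (i + 1)
    have hk1 : K0 ≤ K0 * 2 ^ (i + 1) := Nat.le_mul_of_pos_right _ (by positivity)
    have hk2 : K0 ≤ K0 * 2 ^ i := Nat.le_mul_of_pos_right _ (by positivity)
    have h1 := lev hSX0 hz hb0 (hB X) hG hR hC hD hA20 hA30 hgr hlam hA1 hA2 hA3
      (hH X (yy K0 X (i + 1)) (yy K0 X i) (K0 * 2 ^ (i + 1)) (by omega) (by omega)
        (le_trans (Nat.pow_le_pow_right hp.1 (by omega)) hp.2) hl)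
      (by omega) (by omega) hp.2
      (yy_anti hK01 hX i) (yy_sq hK01 hX i).le
      (le_trans (Nat.pow_le_pow_right hp'.1 (by omega)) hp'.2)
    refine h1.trans ?_
    refine mul_le_mul_of_nonneg_left ?_ (by positivity)
    have h2 : (i : ℝ) ≤ ((K0 * 2 ^ (i + 1) : ℕ) : ℝ) := by
      have h3 : i < 2 ^ i := Nat.lt_two_pow_self
      have h4 : 2 ^ (i + 1) = 2 * 2 ^ i := by rw [pow_succ, mul_comm]
      exact_mod_cast (by nlinarith : i ≤ K0 * 2 ^ (i + 1))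
    calc Real.exp (-((K0 * 2 ^ (i + 1) : ℕ) : ℝ)) ≤ Real.exp (-(i : ℝ)) :=
          Real.exp_le_exp.2 (by linarith)
      _ = (Real.exp (-1)) ^ i := by rw [← Real.exp_nat_mul]; congr 1; ring
      _ ≤ (1 / 2) ^ i := by
          apply pow_le_pow_left₀ (Real.exp_pos _).le
          rw [Real.exp_neg, ← one_div]
          apply one_div_le_one_div_of_le (by norm_num)
          have := Real.exp_one_gt_d9
          linarith
  have hgeo : ∑ i ∈ range I, ((1 : ℝ) / 2) ^ i ≤ 2 := by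
    rw [geom_sum_eq (by norm_num)]
    have h1 : (0 : ℝ) ≤ (1 / 2 : ℝ) ^ I := by positivity
    rw [div_le_iff_of_neg (by norm_num)]
    linarith
  calc ∑ t ∈ T X, R t
      ≤ ∑ t ∈ T0 ∪ (range I).biUnion Ti, R t :=
        sum_le_sum_of_subset_of_nonneg hcov (fun t _ _ => hR t)
    _ ≤ ∑ t ∈ T0, R t + ∑ t ∈ (range I).biUnion Ti, R t := by
        rw [← sum_union_inter]
        exact le_add_of_nonneg_right (sum_nonneg fun t _ => hR t)
    _ ≤ ∑ t ∈ T0, R t + ∑ i ∈ range I, ∑ t ∈ Ti i, R t := by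
        gcongr
        apply splitSum hR
        intro t ht
        rw [mem_biUnion] at ht
        exact ht
    _ ≤ B0 * S X + ∑ i ∈ range I, B1 * S X * (1 / 2) ^ i := add_le_add hT0b (sum_le_sum hTb)
    _ ≤ B0 * S X + B1 * S X * 2 := by
        rw [← mul_sum]
        gcongr
    _ ≤ (R0 + B0 + B1 * 2) * S X := by nlinarith

end Pool.Agent.L0h5.NT
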